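import Mathlib

set_option autoImplicit false

namespace Pool.Agent.Results.MP_ae2f9f_co.Full

/-- Two cells (given by their lower left corners) share a side. -/
def Adj (p q : ℤ × ℤ) : Prop :=
  (p.2 = q.2 ∧ (q.1 = p.1 + 1 ∨ p.1 = q.1 + 1)) ∨ (p.1 = q.1 ∧ (q.2 = p.2 + 1 ∨ p.2 = q.2 + 1))

/-- A polyomino: a nonempty finite set of cells connected under edge-adjacency. -/
def IsPolyomino (P : Finset (ℤ × ℤ)) : Prop :=
  P.Nonempty ∧ ∀ p ∈ P, ∀ q ∈ P, Relation.ReflTransGen (fun a b => a ∈ P ∧ b ∈ P ∧ Adj a b) p q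

/-- Property (S): no nonempty row and no nonempty column is an interval of integers. -/
def PropS (P : Finset (ℤ × ℤ)) : Prop :=
  (∀ b : ℤ, {a | (a, b) ∈ P}.Nonempty → ¬ {a | (a, b) ∈ P}.OrdConnected) ∧
  (∀ a : ℤ, {b | (a, b) ∈ P}.Nonempty → ¬ {b | (a, b) ∈ P}.OrdConnected)

instance (p q : ℤ × ℤ) : Decidable (Adj p q) := by
  unfold Adj
  infer_instance

theorem gap {S : Set ℤ} (h : ¬ S.OrdConnected) : ∃ a c b, a < c ∧ c < b ∧ a ∈ S ∧ c ∉ S ∧ b ∈ S := by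
  by_contra hh
  refine h ⟨fun a ha b hb c hc => ?_⟩
  by_contra hc'
  refine hh ⟨a, c, b, lt_of_le_of_ne hc.1 ?_, lt_of_le_of_ne hc.2 ?_, ha, hc', hb⟩
  · rintro rfl
    exact hc' ha
  · rintro rfl
    exact hc' hb

/-- the right end of the block containing a given element -/
theorem right_end {S : Set ℤ} {a c : ℤ} (ha : a ∈ S) (hc : c ∉ S) (h : a < c) :
    ∃ x, a ≤ x ∧ x < c ∧ x ∈ S ∧ x + 1 ∉ S := by
  obtain ⟨x, h1, h2⟩ := Int.exists_greatest_of_bdd (P := fun x => a ≤ x ∧ x < c ∧ x ∈ S)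
    ⟨c, fun z hz => hz.2.1.le⟩ ⟨a, le_rfl, h, ha⟩
  refine ⟨x, h1.1, h1.2.1, h1.2.2, fun h3 => ?_⟩
  have h4 : x + 1 ≠ c := fun e => hc (e ▸ h3)
  have := h2 (x + 1) ⟨by omega, by omega, h3⟩
  omega

theorem two_ends {S : Set ℤ} (hf : ∃ m, ∀ x ∈ S, x < m) (h : ¬ S.OrdConnected) :
    ∃ x y, x ≠ y ∧ x ∈ S ∧ x + 1 ∉ S ∧ y ∈ S ∧ y + 1 ∉ S := by
  obtain ⟨a, c, b, h1, h2, h3, h4, h5⟩ := gap h
  obtain ⟨m, hm⟩ := hf
  obtain ⟨x, p1, p2, p3, p4⟩ := right_end h3 h4 h1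
  obtain ⟨y, q1, q2, q3, q4⟩ := right_end h5 (fun e => lt_irrefl m (hm m e)) (hm b h5)
  exact ⟨x, y, by omega, p3, p4, q3, q4⟩

theorem ivt {P : Finset (ℤ × ℤ)} (hP : IsPolyomino P) (φ : ℤ × ℤ → ℤ)
    (hφ : ∀ a b, Adj a b → φ b ≤ φ a + 1) {p q : ℤ × ℤ} (hp : p ∈ P) (hq : q ∈ P) {c : ℤ}
    (h1 : φ p ≤ c) (h2 : c ≤ φ q) : c ∈ P.image φ := by
  have h := hP.2 p hp q hq
  clear hq
  induction h with
  | refl => exact Finset.mem_image.2 ⟨p, hp, by omega⟩
  | @tail a b _ hab ih =>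
    by_cases h3 : c ≤ φ a
    · exact ih h3
    · have := hφ a b hab.2.2
      exact Finset.mem_image.2 ⟨b, hab.2.1, by omega⟩

def hs (Q : Finset (ℤ × ℤ)) : Finset (ℤ × ℤ) := Q.filter fun p => (p.1 + 1, p.2) ∈ Q
def vs (Q : Finset (ℤ × ℤ)) : Finset (ℤ × ℤ) := Q.filter fun p => (p.1, p.2 + 1) ∈ Q

theorem hs_mono {Q R : Finset (ℤ × ℤ)} (h : Q ⊆ R) : hs Q ⊆ hs R := by
  intro p hp
  simp only [hs, Finset.mem_filter] at hp ⊢
  exact ⟨h hp.1, h hp.2⟩

theorem vs_mono {Q R : Finset (ℤ × ℤ)} (h : Q ⊆ R) : vs Q ⊆ vs R := by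
  intro p hp
  simp only [vs, Finset.mem_filter] at hp ⊢
  exact ⟨h hp.1, h hp.2⟩

theorem edges {P : Finset (ℤ × ℤ)} (hP : IsPolyomino P) :
    P.card ≤ (hs P).card + (vs P).card + 1 := by
  have key : ∀ k, k + 1 ≤ P.card → ∃ Q ⊆ P, Q.card = k + 1 ∧ k ≤ (hs Q).card + (vs Q).card := by
    intro k
    induction k with
    | zero =>
      intro _
      obtain ⟨p, hp⟩ := hP.1
      exact ⟨{p}, by simpa using hp, by simp, Nat.zero_le _⟩
    | succ k ih =>
      intro hk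
      obtain ⟨Q, h1, h2, h3⟩ := ih (by omega)
      obtain ⟨p, hp⟩ : Q.Nonempty := Finset.card_pos.1 (by omega)
      obtain ⟨q, hq, hq'⟩ := Finset.exists_mem_notMem_of_card_lt_card
        (s := Q) (t := P) (by omega)
      have h4 : ∃ a b, a ∈ Q ∧ b ∈ P ∧ b ∉ Q ∧ Adj a b := by
        have h := hP.2 p (h1 hp) q hq
        clear hq
        induction h with
        | refl => exact absurd hp hq'
        | @tail a b _ hab ih' =>
          by_cases ha : a ∈ Q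
          · exact ⟨a, b, ha, hab.2.1, hq', hab.2.2⟩
          · exact ih' ha
      obtain ⟨⟨a1, a2⟩, ⟨b1, b2⟩, ha, hb, hb', hab⟩ := h4
      have hsub : Q ⊆ insert (b1, b2) Q := Finset.subset_insert _ _
      have m1 := Finset.card_le_card (hs_mono hsub)
      have m2 := Finset.card_le_card (vs_mono hsub)
      refine ⟨insert (b1, b2) Q, Finset.insert_subset hb h1,
        by rw [Finset.card_insert_of_notMem hb', h2], ?_⟩
      simp only [Adj] at hab
      rcases hab with ⟨rfl, rfl | rfl⟩ | ⟨rfl, rfl | rfl⟩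
      · have := Finset.card_lt_card ((Finset.ssubset_iff_of_subset (hs_mono hsub)).2
          ⟨(a1, a2), by simp [hs, ha], by simp [hs, hb']⟩)
        omega
      · have := Finset.card_lt_card ((Finset.ssubset_iff_of_subset (hs_mono hsub)).2
          ⟨(b1, a2), by simp [hs, ha], by simp [hs, hb']⟩)
        omega
      · have := Finset.card_lt_card ((Finset.ssubset_iff_of_subset (vs_mono hsub)).2
          ⟨(a1, a2), by simp [vs, ha], by simp [vs, hb']⟩)
        omega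
      · have := Finset.card_lt_card ((Finset.ssubset_iff_of_subset (vs_mono hsub)).2
          ⟨(a1, b2), by simp [vs, ha], by simp [vs, hb']⟩)
        omega
  have h0 : 0 < P.card := Finset.card_pos.2 hP.1
  obtain ⟨Q, h1, h2, h3⟩ := key (P.card - 1) (by omega)
  have m1 := Finset.card_le_card (hs_mono h1)
  have m2 := Finset.card_le_card (vs_mono h1)
  omega

theorem bdd (P : Finset (ℤ × ℤ)) (φ : ℤ × ℤ → ℤ) : ∃ m, ∀ p ∈ P, φ p < m := by
  obtain ⟨m, hm⟩ := (P.image φ).bddAbove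
  refine ⟨m + 1, fun p hp => ?_⟩
  have := hm (Finset.mem_coe.2 (Finset.mem_image_of_mem φ hp))
  omega

theorem rows {P : Finset (ℤ × ℤ)} (hS : PropS P) :
    2 * (P.image Prod.snd).card + (hs P).card ≤ P.card := by
  have h1 := Finset.card_filter_add_card_filter_not (s := P) fun p => (p.1 + 1, p.2) ∈ P
  have h2 : 2 * (P.image Prod.snd).card ≤ (P.filter fun p => ¬ (p.1 + 1, p.2) ∈ P).card := by
    refine Finset.mul_card_image_le_card_of_maps_to (f := Prod.snd)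
      (fun p hp => Finset.mem_image_of_mem _ (Finset.mem_filter.1 hp).1) 2 fun b hb => ?_
    obtain ⟨p, hp, rfl⟩ := Finset.mem_image.1 hb
    obtain ⟨m, hm⟩ := bdd P Prod.fst
    obtain ⟨x, y, h3, h4, h5, h6, h7⟩ := two_ends ⟨m, fun x hx => hm (x, p.2) hx⟩
      (hS.1 p.2 ⟨p.1, hp⟩)
    refine Finset.one_lt_card.2 ⟨(x, p.2), ?_, (y, p.2), ?_, by simpa using h3⟩
    · simpa using ⟨h4, h5⟩
    · simpa using ⟨h6, h7⟩
  unfold hs
  omega

theorem cols {P : Finset (ℤ × ℤ)} (hS : PropS P) :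
    2 * (P.image Prod.fst).card + (vs P).card ≤ P.card := by
  have h1 := Finset.card_filter_add_card_filter_not (s := P) fun p => (p.1, p.2 + 1) ∈ P
  have h2 : 2 * (P.image Prod.fst).card ≤ (P.filter fun p => ¬ (p.1, p.2 + 1) ∈ P).card := by
    refine Finset.mul_card_image_le_card_of_maps_to (f := Prod.fst)
      (fun p hp => Finset.mem_image_of_mem _ (Finset.mem_filter.1 hp).1) 2 fun b hb => ?_
    obtain ⟨p, hp, rfl⟩ := Finset.mem_image.1 hb
    obtain ⟨m, hm⟩ := bdd P Prod.snd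
    obtain ⟨x, y, h3, h4, h5, h6, h7⟩ := two_ends ⟨m, fun x hx => hm (p.1, x) hx⟩
      (hS.2 p.1 ⟨p.2, hp⟩)
    refine Finset.one_lt_card.2 ⟨(p.1, x), ?_, (p.1, y), ?_, by simpa using h3⟩
    · simpa using ⟨h4, h5⟩
    · simpa using ⟨h6, h7⟩
  unfold vs
  omega

theorem box {P : Finset (ℤ × ℤ)} (hP : IsPolyomino P) (hS : PropS P) :
    P.card + (P.image Prod.snd).card + 2 ≤ (P.image Prod.fst).card * (P.image Prod.snd).card := by
  have f1 : ∀ a b : ℤ × ℤ, Adj a b → b.1 ≤ a.1 + 1 := fun a b h => by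
    unfold Adj at h
    omega
  have f2 : ∀ a b : ℤ × ℤ, Adj a b → b.2 ≤ a.2 + 1 := fun a b h => by
    unfold Adj at h
    omega
  obtain ⟨l, hl, hl'⟩ := Finset.exists_min_image P Prod.fst hP.1
  obtain ⟨r, hr, hr'⟩ := Finset.exists_max_image P Prod.fst hP.1
  have hcol : ∀ p ∈ P, ∃ c ∈ P.image Prod.snd, (p.1, c) ∉ P := by
    intro p hp
    obtain ⟨a, c, b, h1, h2, h3, h4, h5⟩ := gap (hS.2 p.1 ⟨p.2, hp⟩)
    exact ⟨c, ivt hP Prod.snd f2 h3 h5 h1.le h2.le, h4⟩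
  have hrow : ∀ b ∈ P.image Prod.snd, ∃ c ∈ P.image Prod.fst, l.1 < c ∧ c < r.1 ∧
      (c, b) ∉ P := by
    intro b hb
    obtain ⟨p, hp, rfl⟩ := Finset.mem_image.1 hb
    obtain ⟨a, c, b, h1, h2, h3, h4, h5⟩ := gap (hS.1 p.2 ⟨p.1, hp⟩)
    exact ⟨c, ivt hP Prod.fst f1 h3 h5 h1.le h2.le, (hl' _ h3).trans_lt h1,
      h2.trans_le (hr' _ h5), h4⟩
  obtain ⟨u, hu, hu'⟩ := hcol l hl
  obtain ⟨w, hw, hw'⟩ := hcol r hr
  set B := (P.image Prod.fst) ×ˢ (P.image Prod.snd) with hB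
  have hPB : P ⊆ B := fun p hp =>
    Finset.mem_product.2 ⟨Finset.mem_image_of_mem _ hp, Finset.mem_image_of_mem _ hp⟩
  set I := (B \ P).filter fun p => l.1 < p.1 ∧ p.1 < r.1 with hI
  have h1 : (P.image Prod.snd).card ≤ I.card := by
    refine Finset.card_le_card_of_surjOn Prod.snd fun b hb => ?_
    obtain ⟨c, p1, p2, p3, p4⟩ := hrow b hb
    refine ⟨(c, b), ?_, rfl⟩
    exact Finset.mem_filter.2 ⟨Finset.mem_sdiff.2 ⟨Finset.mem_product.2 ⟨p1, hb⟩, p4⟩, p2, p3⟩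
  have hlr : l.1 < r.1 := by
    obtain ⟨c, -, p2, p3, -⟩ := hrow u hu
    omega
  have h2 : insert (l.1, u) (insert (r.1, w) I) ⊆ B \ P := by
    refine Finset.insert_subset ?_ (Finset.insert_subset ?_ (Finset.filter_subset _ _))
    · exact Finset.mem_sdiff.2
        ⟨Finset.mem_product.2 ⟨Finset.mem_image.2 ⟨l, hl, rfl⟩, hu⟩, hu'⟩
    · exact Finset.mem_sdiff.2
        ⟨Finset.mem_product.2 ⟨Finset.mem_image.2 ⟨r, hr, rfl⟩, hw⟩, hw'⟩
  have h3 := Finset.card_le_card h2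
  have h4 : (r.1, w) ∉ I := fun h => lt_irrefl _ (Finset.mem_filter.1 h).2.2
  have h5 : (l.1, u) ∉ insert (r.1, w) I := by
    intro h
    rcases Finset.mem_insert.1 h with h | h
    · have := congrArg Prod.fst h
      exact hlr.ne this
    · exact lt_irrefl _ (Finset.mem_filter.1 h).2.1
  rw [Finset.card_insert_of_notMem h5, Finset.card_insert_of_notMem h4,
    Finset.card_sdiff_of_subset hPB] at h3
  have h6 := Finset.card_le_card hPB
  have h7 : B.card = (P.image Prod.fst).card * (P.image Prod.snd).card :=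
    Finset.card_product _ _
  omega

/-- the cells of the example, each adjacent to an earlier one -/
def L : List (ℤ × ℤ) :=
  [(0, 0), (1, 0), (1, 1), (1, 2), (2, 2), (0, 2), (2, 3), (0, 3), (3, 3), (0, 4), (4, 3),
    (3, 4), (1, 4), (0, 5), (4, 2), (3, 5), (4, 1), (4, 5), (2, 5), (3, 1), (3, 0)]

theorem reach (k : ℕ) : ∀ p ∈ L.toFinset, L.idxOf p ≤ k →
    Relation.ReflTransGen (fun a b => a ∈ L.toFinset ∧ b ∈ L.toFinset ∧ Adj a b) (0, 0) p := by
  have h : ∀ p ∈ L.toFinset, p = (0, 0) ∨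
      ∃ q ∈ L.toFinset, Adj q p ∧ L.idxOf q < L.idxOf p := by decide +kernel
  induction k with
  | zero =>
    intro p hp hk
    rcases h p hp with rfl | ⟨q, -, -, h1⟩
    · exact .refl
    · omega
  | succ k ih =>
    intro p hp hk
    rcases h p hp with rfl | ⟨q, h0, h1, h2⟩
    · exact .refl
    · exact (ih q h0 (by omega)).tail ⟨h0, hp, h1⟩

/-- The least size of a polyomino with property (S) is `21`. -/
theorem result :
    IsLeast {n : ℕ | ∃ P : Finset (ℤ × ℤ), P.card = n ∧ IsPolyomino P ∧ PropS P} 21 := by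
  constructor
  · refine ⟨L.toFinset, by decide +kernel, ⟨⟨(0, 0), by decide +kernel⟩, fun p hp q hq => ?_⟩,
      fun b ⟨a, ha⟩ ho => ?_, fun a ⟨b, hb⟩ ho => ?_⟩
    · refine Relation.ReflTransGen.trans ?_ (reach _ q hq le_rfl)
      have h := reach _ p hp le_rfl
      clear hp
      induction h with
      | refl => exact .refl
      | tail _ hab ih =>
        refine Relation.ReflTransGen.head ⟨hab.2.1, hab.1, ?_⟩ ih
        have := hab.2.2
        unfold Adj at this ⊢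
        omega
    · have h : ∀ p ∈ L.toFinset, ∃ q ∈ L.toFinset, ∃ r ∈ L.toFinset, q.2 = p.2 ∧ r.2 = p.2 ∧
          q.1 < r.1 ∧ (q.1 + 1, p.2) ∉ L.toFinset := by decide +kernel
      obtain ⟨⟨q1, q2⟩, hq, ⟨r1, r2⟩, hr, rfl, h2, h3, h4⟩ := h (a, b) ha
      obtain rfl : r2 = q2 := h2
      exact h4 (ho.out (x := q1) hq (y := r1) hr ⟨by omega, h3⟩)
    · have h : ∀ p ∈ L.toFinset, ∃ q ∈ L.toFinset, ∃ r ∈ L.toFinset, q.1 = p.1 ∧ r.1 = p.1 ∧
          q.2 < r.2 ∧ (p.1, q.2 + 1) ∉ L.toFinset := by decide +kernel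
      obtain ⟨⟨q1, q2⟩, hq, ⟨r1, r2⟩, hr, rfl, h2, h3, h4⟩ := h (a, b) hb
      obtain rfl : r1 = q1 := h2
      exact h4 (ho.out (x := q2) hq (y := r2) hr ⟨by omega, h3⟩)
  · rintro n ⟨P, rfl, hP, hS⟩
    by_contra hn
    have h1 := edges hP
    have h2 := rows hS
    have h3 := cols hS
    have h4 := box hP hS
    generalize (P.image Prod.fst).card = W at *
    generalize (P.image Prod.snd).card = H at *
    have h5 : W ≤ 10 := by omega
    interval_cases W <;> omega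

end Pool.Agent.Results.MP_ae2f9f_co.Full
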